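import Pool.Agent.TH592.BL.Lin

/-!
The Birkhoff-Lewis inequality for plane graphs which become bipartite, or bipartite up to one
vertex, when an independent set of vertices is deleted whose neighbours form closed walks of length
four; for example for the barycentric subdivisions of all plane maps.
-/

set_option autoImplicit false

namespace Pool.Agent.Results.MP_0d034c_co.BarycentricClass

open Polynomial

/-- `f` is a drawing of `G` in the plane with straight non-crossing edges: vertices are distinct
points, no vertex lies in the interior of an edge, and the interiors of different edges are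
disjoint. -/
def StraightDrawing {V : Type} (G : SimpleGraph V) (f : V → ℝ × ℝ) : Prop :=
  Function.Injective f ∧
  (∀ u v w : V, G.Adj u v → f w ∉ openSegment ℝ (f u) (f v)) ∧
  (∀ u v u' v' : V, G.Adj u v → G.Adj u' v' → s(u, v) ≠ s(u', v') →
    Disjoint (openSegment ℝ (f u) (f v)) (openSegment ℝ (f u') (f v')))

/-- The set of the neighbours of `c` is the set of the vertices of a closed walk `v1 v2 v3 v4 v1` of
`G` (so it is the vertex set of a 4-cycle, of a path with two edges, or of an edge), with not both of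
`v1, v3` and not both of `v2, v4` in `U`. -/
def FourLink {V : Type} (G : SimpleGraph V) (U : Set V) (c : V) : Prop :=
  ∃ v1 v2 v3 v4 : V, G.neighborSet c = {v1, v2, v3, v4} ∧
    G.Adj v1 v2 ∧ G.Adj v2 v3 ∧ G.Adj v3 v4 ∧ G.Adj v4 v1 ∧
    ¬ (v1 ∈ U ∧ v3 ∈ U) ∧ ¬ (v2 ∈ U ∧ v4 ∈ U)

/-- Let `G` be a finite graph drawn in the plane with straight non-crossing edges, `C` an
independent set of vertices whose neighbourhoods are vertex sets of closed walks of length four, and
`U` a set of vertices outside `C` each of which is the unique vertex at which a linear form `ℓ` is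
minimal (so `U` is empty or consists of one vertex, on the boundary of the convex hull of the
drawing).  If `G` becomes bipartite when `C` and `U` are deleted, then the chromatic polynomial is
strictly positive at every real `q ≥ 4`. -/
theorem result (V : Type) [Fintype V] (G : SimpleGraph V) (f : V → ℝ × ℝ)
    (hf : StraightDrawing G f) (ℓ : ℝ × ℝ →ₗ[ℝ] ℝ) (U C : Set V)
    (hU : ∀ u ∈ U, ∀ v, v ≠ u → ℓ (f u) < ℓ (f v)) (hUC : Disjoint U C)
    (hC : ∀ x ∈ C, ∀ y ∈ C, ¬ G.Adj x y) (hlink : ∀ c ∈ C, FourLink G U c)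
    (hbip : (G.induce (U ∪ C)ᶜ).Colorable 2)
    (p : ℝ[X]) (hp : ∀ n : ℕ, p.eval (n : ℝ) = (Nat.card (G.Coloring (Fin n)) : ℝ))
    (q : ℝ) (hq : 4 ≤ q) : 0 < p.eval q := by
  classical
  obtain ⟨col⟩ := hbip
  have main : ∀ g : V → ℝ × ℝ, StraightDrawing G g →
      (∀ u ∈ U, ∀ v, v ≠ u → (g u).2 < (g v).2) → 0 < p.eval q := by
    intro g hg hlow
    refine Pool.Agent.TH592.BL.cfg_pos (G := G) (f := g) (U := U) (C := C)
      (κ := fun x => if h : x ∈ (U ∪ C)ᶜ then decide (col ⟨x, h⟩ = 0) else false)
      ⟨hg, hlow, fun u hu hu' => Set.disjoint_left.1 hUC hu hu', hC, ?_, ?_⟩ p hp q hq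
    · intro c hc
      obtain ⟨v1, v2, v3, v4, hN, h⟩ := hlink c hc
      refine ⟨v1, v2, v3, v4, ?_, h⟩
      intro x
      rw [← SimpleGraph.mem_neighborSet, hN]
      simp
    · intro x y hxy hxU hxC hyU hyC
      have hx : x ∈ (U ∪ C)ᶜ := fun e => e.elim hxU hxC
      have hy : y ∈ (U ∪ C)ᶜ := fun e => e.elim hyU hyC
      simp only [dif_pos hx, dif_pos hy]
      intro hne
      have hadj : (G.induce (U ∪ C)ᶜ).Adj ⟨x, hx⟩ ⟨y, hy⟩ := by
        rw [SimpleGraph.comap_adj]
        exact hxy
      have h4 : col ⟨x, hx⟩ ≠ col ⟨y, hy⟩ := col.valid hadj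
      have h5 : (col ⟨x, hx⟩ = 0) ↔ (col ⟨y, hy⟩ = 0) := decide_eq_decide.1 hne
      apply h4
      have h6 : ∀ x y : Fin 2, (x = 0 ↔ y = 0) → x = y := by decide
      exact h6 _ _ h5
  by_cases hℓ : ℓ = 0
  · refine main f hf ?_
    intro u hu v hv
    have := hU u hu v hv
    rw [hℓ] at this
    simp at this
  · obtain ⟨L, hL, hL2⟩ := Pool.Agent.TH592.BL.exists_linear ℓ hℓ
    refine main (fun v => L (f v)) (Pool.Agent.TH592.BL.straight_linear hf L hL) ?_
    intro u hu v hv
    rw [hL2, hL2]
    exact hU u hu v hv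

end Pool.Agent.Results.MP_0d034c_co.BarycentricClass
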