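import Pool.Agent.TH592.BF.Mir
import Pool.Agent.H207R2.BL.Minor

/-!
An inequality between the chromatic polynomials of a mirror symmetric plane graph and of the graphs
obtained from its upper half by folding the axis.
-/

set_option autoImplicit false

namespace Pool.Agent.Results.MP_0d034c_co.FoldedMirrorGraphs

open Polynomial Pool.Agent.H207R2.BL

/-- `K` is the graph obtained from the part of `G` in the closed upper half plane by identifying
vertices on the `x`-axis according to a noncrossing partition of them, the vertices in one block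
being pairwise not adjacent (as `K` has no loops); `φ` is the quotient map. -/
structure Folding {V W : Type} (G : SimpleGraph V) (f : V → ℝ × ℝ) (K : SimpleGraph W)
    (φ : {v : V // 0 ≤ (f v).2} → W) : Prop where
  surj : Function.Surjective φ
  adj : ∀ a b : W, K.Adj a b ↔ ∃ x y, φ x = a ∧ φ y = b ∧ G.Adj x.1 y.1
  axis : ∀ x y, φ x = φ y → x ≠ y → (f x.1).2 = 0
  noncrossing : ∀ a b c d, (f a.1).2 = 0 → (f b.1).2 = 0 → (f c.1).2 = 0 → (f d.1).2 = 0 →
    (f a.1).1 < (f b.1).1 → (f b.1).1 < (f c.1).1 → (f c.1).1 < (f d.1).1 →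
    φ a = φ c → φ b = φ d → φ a = φ b

/-- Let `G` be a finite graph drawn in the plane (edges are arcs) symmetrically with respect to the
`x`-axis, no edge crossing the axis.  Let `K` be a graph obtained from the part of `G` in the closed
upper half plane by identifying vertices on the axis according to a noncrossing partition with
independent blocks.  Then `P(K,q)^2 ≤ q^N P(G,q)` for all real `q ≥ 4`, where `N` is the number of
blocks; so `P(G,q) > 0` whenever `q ≥ 4` and `P(K,q) ≠ 0`, that is, a root `q ≥ 4` of `P(G,q)` is a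
root of `P(K,q)` for every such `K`.  In particular `P(G,q) > 0` for all real `q > 4` if, for one of
the graphs `K`, no minor of `K` has minimum degree at least `5`. -/
theorem result (V W : Type) [Finite V] (G : SimpleGraph V) (f : V → ℝ × ℝ)
    (γ : V → V → ℝ → ℝ × ℝ) (h : MirrorDrawing G f γ) (K : SimpleGraph W)
    (φ : {v : V // 0 ≤ (f v).2} → W) (hK : Folding G f K φ) (p r : ℝ[X]) (hp : IsChrom G p)
    (hr : IsChrom K r) :
    (∀ q : ℝ, 4 ≤ q →
      r.eval q ^ 2 ≤ q ^ (Nat.card {w : W // ∃ v, (f v.1).2 = 0 ∧ φ v = w}) * p.eval q) ∧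
    (∀ q : ℝ, 4 ≤ q → r.eval q ≠ 0 → 0 < p.eval q) ∧
    (MinorDegLe 4 K → ∀ q : ℝ, 4 < q → 0 < p.eval q) := by
  classical
  have hKF : Pool.Agent.TH592.BF.Folding G f K φ := ⟨hK.1, hK.2, hK.3, hK.4⟩
  have : Finite W := Finite.of_surjective φ hK.surj
  have h1 : ∀ q : ℝ, 4 ≤ q →
      r.eval q ^ 2 ≤ q ^ (Nat.card {w : W // ∃ v, (f v.1).2 = 0 ∧ φ v = w}) * p.eval q :=
    fun q hq => Pool.Agent.TH592.BF.mirror_fold G f γ h K φ hKF p r hp hr q hq
  have h2 : ∀ q : ℝ, 4 ≤ q → r.eval q ≠ 0 → 0 < p.eval q := by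
    intro q hq hne
    have hq0 : (0 : ℝ) < q := by linarith
    have hpow : 0 < q ^ (Nat.card {w : W // ∃ v, (f v.1).2 = 0 ∧ φ v = w}) := pow_pos hq0 _
    have hsq : 0 < r.eval q ^ 2 := by positivity
    by_contra hcon
    push Not at hcon
    have h5 := mul_nonpos_of_nonneg_of_nonpos hpow.le hcon
    linarith [h1 q hq]
  refine ⟨h1, h2, ?_⟩
  intro hm q hq
  refine h2 q hq.le (ne_of_gt ?_)
  rw [eq_chr hr]
  exact minorDeg_pos 4 q (by exact_mod_cast hq) _ hm

end Pool.Agent.Results.MP_0d034c_co.FoldedMirrorGraphs
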