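import Pool.Agent.TH592.BF.Half2

/-!
The Birkhoff-Lewis inequality for mirror symmetric plane graphs which become bipartite when a set
of pairwise not adjacent vertices on the axis is deleted, and for those which become bipartite when
moreover a set of pairwise not adjacent vertices is deleted whose neighbours form closed walks of
length four.
-/

set_option autoImplicit false

namespace Pool.Agent.Results.MP_0d034c_co.MirrorBipartiteOffAxis

open Polynomial

/-- `f` is a drawing of `G` in the plane with straight non-crossing edges: vertices are distinct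
points, no vertex lies in the interior of an edge, and the interiors of different edges are
disjoint. -/
def StraightDrawing {V : Type} (G : SimpleGraph V) (f : V → ℝ × ℝ) : Prop :=
  Function.Injective f ∧
  (∀ u v w : V, G.Adj u v → f w ∉ openSegment ℝ (f u) (f v)) ∧
  (∀ u v u' v' : V, G.Adj u v → G.Adj u' v' → s(u, v) ≠ s(u', v') →
    Disjoint (openSegment ℝ (f u) (f v)) (openSegment ℝ (f u') (f v')))

/-- The drawing `f` is symmetric: the reflection in the `x`-axis maps vertices to vertices and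
edges to edges, and no edge joins the open upper half plane to the open lower half plane. -/
def MirrorSymmetric {V : Type} (G : SimpleGraph V) (f : V → ℝ × ℝ) : Prop :=
  (∃ σ : V → V, (∀ v, f (σ v) = ((f v).1, -(f v).2)) ∧ ∀ u v, G.Adj u v → G.Adj (σ u) (σ v)) ∧
  ∀ u v, G.Adj u v → 0 < (f u).2 → 0 ≤ (f v).2

/-- The set of the neighbours of `c` is the set of the vertices of a closed walk `v1 v2 v3 v4 v1` of
`G` (so it is the vertex set of a 4-cycle, of a path with two edges, or of an edge), with not both of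
`v1, v3` and not both of `v2, v4` in `B`. -/
def FourLink {V : Type} (G : SimpleGraph V) (B : Set V) (c : V) : Prop :=
  ∃ v1 v2 v3 v4 : V, G.neighborSet c = {v1, v2, v3, v4} ∧
    G.Adj v1 v2 ∧ G.Adj v2 v3 ∧ G.Adj v3 v4 ∧ G.Adj v4 v1 ∧
    ¬ (v1 ∈ B ∧ v3 ∈ B) ∧ ¬ (v2 ∈ B ∧ v4 ∈ B)

/-- Let `G` be a finite graph drawn in the plane with straight non-crossing edges, symmetrically
with respect to the `x`-axis, no edge crossing the axis.  Let `B` be a set, of any size, of pairwise
not adjacent vertices on the axis, and let `C` be a set (possibly empty) of pairwise not adjacent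
vertices outside `B` whose neighbourhoods are vertex sets of closed walks of length four, opposite
vertices of which are not both in `B`.  If `G` becomes bipartite when `B` and `C` are deleted, then
the chromatic polynomial (the polynomial counting proper `n`-colourings at each natural `n`) is
strictly positive at every real `q ≥ 4`. -/
theorem result (V : Type) [Finite V] (G : SimpleGraph V) (f : V → ℝ × ℝ)
    (hf : StraightDrawing G f) (hm : MirrorSymmetric G f) (B C : Set V)
    (hB : ∀ b ∈ B, (f b).2 = 0) (hBind : ∀ a ∈ B, ∀ b ∈ B, ¬ G.Adj a b)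
    (hBC : Disjoint B C) (hCind : ∀ a ∈ C, ∀ b ∈ C, ¬ G.Adj a b)
    (hlink : ∀ c ∈ C, FourLink G B c) (hbip : (G.induce (B ∪ C)ᶜ).Colorable 2)
    (p : ℝ[X]) (hp : ∀ n : ℕ, p.eval (n : ℝ) = (Nat.card (G.Coloring (Fin n)) : ℝ))
    (q : ℝ) (hq : 4 ≤ q) : 0 < p.eval q := by
  classical
  obtain ⟨col⟩ := hbip
  have hcol : ∀ x y, x ∉ B → x ∉ C → y ∉ B → y ∉ C → G.Adj x y →
      (fun x => if h : x ∈ (B ∪ C)ᶜ then decide (col ⟨x, h⟩ = 0) else false) x ≠
      (fun x => if h : x ∈ (B ∪ C)ᶜ then decide (col ⟨x, h⟩ = 0) else false) y := by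
    intro x y hxB hxC hyB hyC hxy
    have hx' : x ∈ (B ∪ C)ᶜ := fun e => e.elim hxB hxC
    have hy' : y ∈ (B ∪ C)ᶜ := fun e => e.elim hyB hyC
    simp only [dif_pos hx', dif_pos hy']
    intro hcon
    have hadj : (G.induce (B ∪ C)ᶜ).Adj ⟨x, hx'⟩ ⟨y, hy'⟩ := by
      rw [SimpleGraph.comap_adj]
      exact hxy
    have h4 : col ⟨x, hx'⟩ ≠ col ⟨y, hy'⟩ := col.valid hadj
    have h5 : (col ⟨x, hx'⟩ = 0) ↔ (col ⟨y, hy'⟩ = 0) := decide_eq_decide.1 hcon
    apply h4
    have h6 : ∀ x y : Fin 2, (x = 0 ↔ y = 0) → x = y := by decide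
    exact h6 _ _ h5
  have hlink' : ∀ c ∈ C, ∃ v1 v2 v3 v4, (∀ x, G.Adj c x ↔ x = v1 ∨ x = v2 ∨ x = v3 ∨ x = v4) ∧
      G.Adj v1 v2 ∧ G.Adj v2 v3 ∧ G.Adj v3 v4 ∧ G.Adj v4 v1 ∧ ¬ (v1 ∈ B ∧ v3 ∈ B) ∧
      ¬ (v2 ∈ B ∧ v4 ∈ B) := by
    intro c hc
    obtain ⟨v1, v2, v3, v4, hN, h⟩ := hlink c hc
    refine ⟨v1, v2, v3, v4, ?_, h⟩
    intro x
    rw [← SimpleGraph.mem_neighborSet, hN]
    simp
  by_cases hne : ∃ b0, b0 ∈ B
  · obtain ⟨b0, hb0⟩ := hne
    exact Pool.Agent.TH592.BF.mirror_pos2 G f hf hm.1 hm.2 B C hB hBind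
      (fun c hc h => Set.disjoint_left.1 hBC h hc) hCind hlink' _ hcol b0 hb0 p hp q hq
  · have : Fintype V := Fintype.ofFinite V
    have hB0 : ∀ x, x ∉ B := fun x hx => hne ⟨x, hx⟩
    refine Pool.Agent.TH592.BL.cfg_pos (G := G) (f := f) (U := ∅) (C := C)
      ⟨hf, fun u hu => absurd hu (Set.notMem_empty _), fun u hu => absurd hu (Set.notMem_empty _),
        hCind, ?_, fun x y hxy _ hxC _ hyC => hcol x y (hB0 x) hxC (hB0 y) hyC hxy⟩ p hp q hq
    intro c hc
    obtain ⟨v1, v2, v3, v4, hN, h12, h23, h34, h41, -, -⟩ := hlink' c hc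
    exact ⟨v1, v2, v3, v4, hN, h12, h23, h34, h41, fun h => absurd h.1 (Set.notMem_empty _),
      fun h => absurd h.1 (Set.notMem_empty _)⟩

end Pool.Agent.Results.MP_0d034c_co.MirrorBipartiteOffAxis
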