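import Pool.Agent.TH389.BL.FinalQ17

/-!
The Birkhoff-Lewis inequality for triangulations which can be shelled with perimeter at most seven.
-/

set_option autoImplicit false

namespace Pool.Agent.Results.MP_0d034c_co.ShelledPerimeterSeven

open Polynomial Pool.Agent.TH389.BL

/-- Let `G` be the graph of a triangulated disc (or of the sphere, when the boundary is a triangle)
which is built from a triangle by joining new vertices to two consecutive boundary vertices and by
adding edges over a boundary vertex, the boundary always having at most seven vertices. Then the
chromatic polynomial of `G` is strictly positive at every real `q` with `17/4 < q < 5`. -/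
theorem result (n : ℕ) (G : SimpleGraph (Fin n)) (ring : List (Fin n)) (h : Shelled n G ring)
    (p : ℝ[X]) (hp : ∀ k : ℕ, p.eval (k : ℝ) = (Nat.card (G.Coloring (Fin k)) : ℝ))
    (q : ℝ) (h1 : 17 / 4 < q) (h2 : q < 5) : 0 < p.eval q :=
  shelled_pos h (by linarith) (Q17.cl h1 h2) p hp

end Pool.Agent.Results.MP_0d034c_co.ShelledPerimeterSeven
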